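import Pool.Agent.H27.Pattern.Defs

/-!
# Patterns of blocks of consecutive primes: basic facts
-/

set_option autoImplicit false

namespace Pool.Agent.H27.Pattern

lemma p_prime (k : ℕ) : (p k).Prime := Nat.prime_nth_prime _

lemma p_strictMono {a b : ℕ} (ha : 1 ≤ a) (h : a < b) : p a < p b :=
  Nat.nth_strictMono Nat.infinite_setOf_prime (by omega)

lemma p_inj {a b : ℕ} (ha : 1 ≤ a) (hb : 1 ≤ b) (h : p a = p b) : a = b := by
  rcases lt_trichotomy a b with h1 | h1 | h1
  · exact absurd h (p_strictMono ha h1).ne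
  · exact h1
  · exact absurd h (p_strictMono hb h1).ne'

lemma exists_index {r : ℕ} (hr : r.Prime) {k : ℕ} (hk : 1 ≤ k) (hkr : p k ≤ r) {Y : ℕ}
    (hY : r ≤ Y) : ∃ i < Nat.primeCounting Y, p (k + i) = r := by
  have h1 : Nat.nth Nat.Prime (Nat.count Nat.Prime r) = r := Nat.nth_count hr
  have h2 : k - 1 ≤ Nat.count Nat.Prime r := by
    have h3 : Nat.count Nat.Prime (p k) = k - 1 := Nat.count_nth_of_infinite Nat.infinite_setOf_prime _
    rw [← h3]
    exact Nat.count_monotone _ hkr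
  have h4 : Nat.count Nat.Prime r < Nat.primeCounting Y := by
    rw [Nat.primeCounting, Nat.primeCounting']
    refine lt_of_lt_of_le ?_ (Nat.count_monotone _ (show r + 1 ≤ Y + 1 by omega))
    rw [Nat.count_succ, if_pos hr]
    omega
  refine ⟨Nat.count Nat.Prime r - (k - 1), by omega, ?_⟩
  rw [p]
  have h5 : k + (Nat.count Nat.Prime r - (k - 1)) - 1 = Nat.count Nat.Prime r := by omega
  rw [h5, h1]

/-- If every reduced class modulo a prime `q ≥ p k` contains a prime in `(q + p k, Y]`, then the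
block of all primes in `[p k, Y]`, and any longer one, occurs only once. -/
theorem mem_uniqueLengths {k q Y : ℕ} (hk : 1 ≤ k) (hq : q.Prime) (hkq : p k ≤ q) (hqY : q ≤ Y)
    (h : ∀ a : ZMod q, a ≠ 0 → ∃ r : ℕ, r.Prime ∧ q + p k < r ∧ r ≤ Y ∧ ((r : ℕ) : ZMod q) = a) :
    Nat.primeCounting Y ∈ UniqueLengths k := by
  have hpos : 1 ≤ Nat.primeCounting Y := by
    obtain ⟨i, hi, -⟩ := exists_index hq hk hkq hqY
    omega
  refine ⟨hpos, fun j hj hjk hs => ?_⟩
  have hd : (p j : ℤ) - p k ≠ 0 := by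
    intro h0
    exact hjk (p_inj hj hk (by omega))
  have key : ∀ r : ℕ, r.Prime → p k ≤ r → r ≤ Y →
      (((r : ℤ) + ((p j : ℤ) - p k) : ℤ) : ZMod q) = 0 → (r : ℤ) + ((p j : ℤ) - p k) = q := by
    intro r hr hkr hrY h0
    obtain ⟨i, hi, hir⟩ := exists_index hr hk hkr hrY
    have h1 := hs i hi
    rw [hir] at h1
    have h2 : (r : ℤ) + ((p j : ℤ) - p k) = p (j + i) := by omega
    rw [h2] at h0 ⊢
    rw [Int.cast_natCast, ZMod.natCast_eq_zero_iff] at h0
    have h3 := (Nat.prime_dvd_prime_iff_eq hq (p_prime (j + i))).1 h0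
    exact_mod_cast h3.symm
  by_cases h0 : (((p j : ℤ) - p k : ℤ) : ZMod q) = 0
  · have h1 := key q hq hkq hqY (by
      rw [Int.cast_add, h0, add_zero, Int.cast_natCast, ZMod.natCast_self])
    omega
  · obtain ⟨r, hr, h1, h2, h3⟩ := h (-(((p j : ℤ) - p k : ℤ) : ZMod q)) (neg_ne_zero.2 h0)
    have h4 := key r hr (by omega) h2 (by
      rw [Int.cast_add, Int.cast_natCast, h3]
      exact neg_add_cancel _)
    have h5 := (p_prime j).pos
    omega

lemma uniqueLengths_nonempty {k : ℕ} (hk : 1 ≤ k) : (UniqueLengths k).Nonempty := by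
  have hq := p_prime k
  have := Fact.mk hq
  have h1 : ∀ a : ZMod (p k), ∃ r : ℕ, a ≠ 0 → r.Prime ∧ p k + p k < r ∧ ((r : ℕ) : ZMod (p k)) = a := by
    intro a
    by_cases ha : a = 0
    · exact ⟨0, fun h => absurd ha h⟩
    · obtain ⟨r, hr1, hr2, hr3⟩ :=
        Nat.forall_exists_prime_gt_and_eq_mod (Ne.isUnit ha) (p k + p k)
      exact ⟨r, fun _ => ⟨hr2, hr1, hr3⟩⟩
  choose f hf using h1
  refine ⟨_, mem_uniqueLengths (Y := p k + Finset.univ.sup f) hk hq le_rfl (by omega) fun a ha => ?_⟩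
  obtain ⟨h1, h2, h3⟩ := hf a ha
  exact ⟨f a, h1, h2, (Finset.le_sup (Finset.mem_univ a)).trans (by omega), h3⟩

end Pool.Agent.H27.Pattern
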