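import Pool.Agent.H27.Pattern.Basic

/-!
# Counting patterns
-/

set_option autoImplicit false

namespace Pool.Agent.H27.Pattern

open Finset

lemma uniqueLengths_mono {k L l : ℕ} (h : L ∈ UniqueLengths k) (hl : L ≤ l) :
    l ∈ UniqueLengths k := by
  refine ⟨h.1.trans hl, fun j hj hjk hs => h.2 j hj hjk fun i hi => hs i (by omega)⟩

/-- sum of the spans -/
lemma sum_span (x l : ℕ) :
    ∑ k ∈ Icc 1 x, ((p (k + l) : ℤ) - p k) ≤ l * p (x + l) := by
  induction l with
  | zero => simp
  | succ l ih =>
    have h1 : ∀ k ∈ Icc 1 x, ((p (k + (l + 1)) : ℤ) - p k) =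
        ((p (k + l) : ℤ) - p k) + ((p (k + l + 1) : ℤ) - p (k + l)) := by
      intro k _
      rw [← add_assoc]
      ring
    have h2 : ∀ y : ℕ, ∑ k ∈ Icc 1 y, ((p (k + l + 1) : ℤ) - p (k + l)) =
        (p (y + l + 1) : ℤ) - p (l + 1) := by
      intro y
      induction y with
      | zero => simp
      | succ y ihy =>
        rw [Finset.sum_Icc_succ_top (by omega), ihy]
        rw [show y + 1 + l = y + l + 1 by ring]
        ring
    have h3 : (p (x + l) : ℤ) ≤ p (x + (l + 1)) := by
      have : p (x + l) ≤ p (x + (l + 1)) :=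
        Nat.nth_monotone Nat.infinite_setOf_prime (by omega)
      exact_mod_cast this
    rw [Finset.sum_congr rfl h1, Finset.sum_add_distrib, h2 x]
    have h4 : (0 : ℤ) ≤ p (l + 1) := by positivity
    have h5 : (l : ℤ) * p (x + l) ≤ l * p (x + (l + 1)) := by gcongr
    push_cast
    rw [show x + l + 1 = x + (l + 1) by ring]
    linarith

/-- the set of offsets of the block of length `l` at `k` -/
noncomputable def offs (k l : ℕ) : Finset ℕ := (range l).image fun i => p (k + i) - p k

lemma offs_card {k : ℕ} (hk : 1 ≤ k) (l : ℕ) : (offs k l).card = l := by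
  rw [offs, Finset.card_image_of_injOn, Finset.card_range]
  intro i _ j _ h
  have h1 : p k ≤ p (k + i) := Nat.nth_monotone Nat.infinite_setOf_prime (by omega)
  have h2 : p k ≤ p (k + j) := Nat.nth_monotone Nat.infinite_setOf_prime (by omega)
  have h3 : p (k + i) = p (k + j) := by
    simp only at h
    omega
  have := p_inj (by omega) (by omega) h3
  omega

lemma offs_inj {j k l : ℕ} (hj : 1 ≤ j) (hk : 1 ≤ k) (h : offs j l = offs k l) :
    SamePattern j k l := by
  have hmono : ∀ m : ℕ, 1 ≤ m → StrictMono fun i : Fin l => p (m + i) - p m := by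
    intro m hm a b hab
    have h1 : p m ≤ p (m + a) := Nat.nth_monotone Nat.infinite_setOf_prime (by omega)
    have h2 : p (m + a) < p (m + b) := p_strictMono (by omega) (by
      have : (a : ℕ) < b := hab
      omega)
    simp only
    omega
  have hrange : ∀ m : ℕ, Set.range (fun i : Fin l => p (m + i) - p m) = (offs m l : Set ℕ) := by
    intro m
    ext n
    simp only [Set.mem_range, offs, Finset.coe_image, Finset.coe_range, Set.mem_image, Set.mem_Iio]
    constructor
    · rintro ⟨i, hi⟩
      exact ⟨i, i.2, hi⟩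
    · rintro ⟨i, hi, hin⟩
      exact ⟨⟨i, hi⟩, hin⟩
  have h1 : (fun i : Fin l => p (j + i) - p j) = fun i : Fin l => p (k + i) - p k :=
    ((hmono j hj).range_inj (hmono k hk)).1 (by rw [hrange, hrange, h])
  intro i hi
  have h2 := congrFun h1 ⟨i, hi⟩
  have h3 : p j ≤ p (j + i) := Nat.nth_monotone Nat.infinite_setOf_prime (by omega)
  have h4 : p k ≤ p (k + i) := Nat.nth_monotone Nat.infinite_setOf_prime (by omega)
  simp only at h2
  omega

open Classical in
/-- counting -/
lemma count_le (x l D : ℕ) (hD : 0 < D) :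
    (((Icc 1 x).filter fun k => l ∈ UniqueLengths k).card : ℝ) ≤
      l * p (x + l) / D + (D + 1).choose l := by
  set B := (Icc 1 x).filter fun k => l ∈ UniqueLengths k with hB
  set B1 := B.filter fun k => D < p (k + l) - p k with hB1
  set B2 := B.filter fun k => ¬ D < p (k + l) - p k with hB2
  have h1 : B.card = B1.card + B2.card := (Finset.card_filter_add_card_filter_not _).symm
  have h2 : (B1.card : ℝ) ≤ l * p (x + l) / D := by
    rw [le_div_iff₀ (by exact_mod_cast hD)]
    have h3 : ((B1.card * D : ℕ) : ℤ) ≤ l * p (x + l) := by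
      refine le_trans ?_ (sum_span x l)
      have h4 : ((B1.card * D : ℕ) : ℤ) ≤ ∑ k ∈ B1, ((p (k + l) : ℤ) - p k) := by
        push_cast
        rw [← nsmul_eq_mul]
        refine Finset.card_nsmul_le_sum _ _ _ fun k hk => ?_
        have := (mem_filter.1 hk).2
        omega
      refine h4.trans (Finset.sum_le_sum_of_subset_of_nonneg ?_ fun k _ _ => ?_)
      · exact (Finset.filter_subset _ _).trans (Finset.filter_subset _ _)
      · have : p k ≤ p (k + l) := Nat.nth_monotone Nat.infinite_setOf_prime (by omega)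
        omega
    exact_mod_cast h3
  have h3 : B2.card ≤ (D + 1).choose l := by
    have h4 : B2.card ≤ ((range (D + 1)).powersetCard l).card := by
      refine Finset.card_le_card_of_injOn (fun k => offs k l) ?_ ?_
      · intro k hk
        have hk1 := mem_filter.1 hk
        have hk2 := mem_filter.1 hk1.1
        have hk3 := mem_Icc.1 hk2.1
        rw [Finset.mem_coe, Finset.mem_powersetCard]
        refine ⟨?_, offs_card hk3.1 l⟩
        intro n hn
        obtain ⟨i, hi, rfl⟩ := Finset.mem_image.1 hn
        have h5 : p (k + i) ≤ p (k + l) := Nat.nth_monotone Nat.infinite_setOf_prime (by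
          have := mem_range.1 hi
          omega)
        rw [mem_range]
        have := hk1.2
        omega
      · intro j hj k hk hjk
        have hj1 := mem_filter.1 (Finset.mem_coe.1 hj)
        have hj2 := mem_filter.1 hj1.1
        have hk1 := mem_filter.1 (Finset.mem_coe.1 hk)
        have hk2 := mem_filter.1 hk1.1
        have h5 := offs_inj (mem_Icc.1 hj2.1).1 (mem_Icc.1 hk2.1).1 hjk
        by_contra hne
        exact hk2.2.2 j (mem_Icc.1 hj2.1).1 hne h5
    rwa [Finset.card_powersetCard, Finset.card_range] at h4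
  rw [h1]
  push_cast
  have h5 : (B2.card : ℝ) ≤ ((D + 1).choose l : ℕ) := by exact_mod_cast h3
  linarith

/-- binomial bound -/
lemma choose_le {n l : ℕ} (hl : 0 < l) : ((n.choose l : ℕ) : ℝ) ≤ (Real.exp 1 * n / l) ^ l := by
  have h1 : ((n.choose l : ℕ) : ℝ) ≤ (n : ℝ) ^ l / l.factorial := Nat.choose_le_pow_div l n
  have h2 := Real.pow_div_factorial_le_exp (l : ℝ) (Nat.cast_nonneg _) l
  have hl0 : (0 : ℝ) < l := by exact_mod_cast hl
  refine h1.trans ?_
  rw [div_pow, mul_pow, ← Real.exp_nat_mul, mul_one]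
  rw [div_le_div_iff₀ (by positivity) (by positivity)]
  rw [div_le_iff₀ (by positivity)] at h2
  nlinarith [pow_nonneg (Nat.cast_nonneg (α := ℝ) n) l]

/-- upper bound for the `n`-th prime -/
lemma p_le : ∀ᶠ n : ℕ in Filter.atTop, (p n : ℝ) ≤ 4 * n * Real.log n := by
  have h1 : ∀ᶠ n : ℕ in Filter.atTop, (10 : ℝ) ≤ Real.log n :=
    (Real.tendsto_log_atTop.comp tendsto_natCast_atTop_atTop).eventually_ge_atTop 10
  filter_upwards [h1, Filter.eventually_ge_atTop 1] with n hn hn1
  have hn0 : (0 : ℝ) < n := by exact_mod_cast hn1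
  set L := Real.log n with hL
  have hexp : L ^ 2 ≤ n := by
    have h2 : Real.exp L = n := Real.exp_log hn0
    have h3 := Real.pow_div_factorial_le_exp L (by linarith) 3
    rw [h2] at h3
    have h4 : ((3 : ℕ).factorial : ℝ) = 6 := by norm_num [Nat.factorial]
    rw [h4, div_le_iff₀ (by norm_num)] at h3
    nlinarith [sq_nonneg L]
  have h10 : 10 * L ≤ n := by nlinarith
  set y := 4 * n * L with hy
  have hy1 : 1 < y := by nlinarith
  have h2 := Chebyshev.pi_ge' hy1
  have h3 : Real.log y ≤ 2 * L := by
    have : Real.log y ≤ Real.log ((n : ℝ) ^ 2) := by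
      apply Real.log_le_log (by linarith)
      rw [hy]
      nlinarith
    rwa [Real.log_pow] at this
  have h4 : Real.log (y + 2) ≤ 3 * L := by
    have : Real.log (y + 2) ≤ Real.log ((n : ℝ) ^ 3) := by
      apply Real.log_le_log (by linarith)
      rw [hy]
      nlinarith [sq_nonneg (n : ℝ), mul_pos hn0 hn0]
    rwa [Real.log_pow] at this
  have hl2 : 0.6931471803 < Real.log 2 := Real.log_two_gt_d9
  have hl3 : Real.log 2 < 0.6931471808 := Real.log_two_lt_d9
  have h5 : (n : ℝ) ≤ Nat.primeCounting ⌊y⌋₊ := by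
    refine le_trans ?_ h2
    rw [le_div_iff₀ (Real.log_pos hy1)]
    have h6 : (n : ℝ) * Real.log y ≤ n * (2 * L) := by gcongr
    have h7 : 27 / 10 * (n * L) ≤ (y - 1) * Real.log 2 := by
      rw [hy]
      nlinarith [mul_pos hn0 (show 0 < L by linarith)]
    nlinarith [mul_pos hn0 (show 0 < L by linarith)]
  have h6 : n ≤ Nat.primeCounting ⌊y⌋₊ := by exact_mod_cast h5
  have h7 : p n ≤ ⌊y⌋₊ := by
    by_contra hc
    push Not at hc
    have h8 : Nat.primeCounting ⌊y⌋₊ ≤ n - 1 := by
      have h9 : Nat.count Nat.Prime (p n) = n - 1 :=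
        Nat.count_nth_of_infinite Nat.infinite_setOf_prime _
      rw [← h9, Nat.primeCounting, Nat.primeCounting']
      exact Nat.count_monotone _ hc
    omega
  calc (p n : ℝ) ≤ ⌊y⌋₊ := by exact_mod_cast h7
    _ ≤ y := Nat.floor_le (by linarith)

end Pool.Agent.H27.Pattern
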