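import Mathlib

/-!
# Patterns of blocks of consecutive primes: definitions
-/

set_option autoImplicit false

namespace Pool.Agent.H27.Pattern

/-- the `k`-th prime, numbered from `p 1 = 2` -/
noncomputable def p (k : ℕ) : ℕ := Nat.nth Nat.Prime (k - 1)

/-- the blocks `p j, …, p (j + l - 1)` and `p k, …, p (k + l - 1)` have the same offsets -/
def SamePattern (j k l : ℕ) : Prop :=
  ∀ i : ℕ, i < l → (p (j + i) : ℤ) - (p j : ℤ) = (p (k + i) : ℤ) - (p k : ℤ)

/-- the lengths `l ≥ 1` for which the pattern of the block of `l` consecutive primes starting at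
`p k` is the pattern of no other block of `l` consecutive primes -/
def UniqueLengths (k : ℕ) : Set ℕ :=
  {l : ℕ | 1 ≤ l ∧ ∀ j : ℕ, 1 ≤ j → j ≠ k → ¬ SamePattern j k l}

end Pool.Agent.H27.Pattern
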